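import Pool.Agent.H34.GU.Targets1
import Pool.Agent.H8.GZ.ADP

/-!
# POU: Poisson summation over the matrices with a given value at a vector (board gu, page
H34_GU.md, section 5)
-/

set_option autoImplicit false

namespace Pool.Agent.H30.GU.PS

open MeasureTheory Pool.Agent.H34.GM Pool.Agent.H34.GZ Pool.Agent.H34.GU

theorem psn_eq_one {N : ℕ} [NeZero N] (a : ZMod N) (h : psn N a = 1) : a = 0 := by
  have hN : (0 : ℝ) < N := by exact_mod_cast Nat.pos_of_ne_zero (NeZero.ne N)
  unfold psn ee at h
  rw [Complex.exp_eq_one_iff] at h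
  obtain ⟨n, hn⟩ := h
  have h2 : (2 * (Real.pi : ℂ) * Complex.I) ≠ 0 := Complex.two_pi_I_ne_zero
  have h3 : (((a.val : ℝ) / N : ℝ) : ℂ) = (n : ℂ) := by
    apply mul_left_cancel₀ h2
    rw [mul_comm _ (n : ℂ), ← hn]
  have h4 : (a.val : ℝ) / N = (n : ℝ) := by exact_mod_cast h3
  have h5 : (a.val : ℝ) = n * N := by
    rw [div_eq_iff hN.ne'] at h4; exact h4
  have h6 : (a.val : ℤ) = n * N := by exact_mod_cast h5
  have h7 : (a.val : ℤ) < N := by exact_mod_cast ZMod.val_lt a
  have hN' : (0 : ℤ) < N := by exact_mod_cast Nat.pos_of_ne_zero (NeZero.ne N)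
  have h8 : n = 0 := by
    have h9 : 0 ≤ n * (N : ℤ) := by rw [← h6]; exact Int.natCast_nonneg _
    have h10 : n * (N : ℤ) < 1 * N := by rw [← h6, one_mul]; exact h7
    have h11 : n < 1 := lt_of_mul_lt_mul_right h10 hN'.le
    have h12 : 0 ≤ n := by
      by_contra hc
      push Not at hc
      nlinarith
    omega
  rw [h8, zero_mul] at h6
  exact (ZMod.val_eq_zero a).1 (by exact_mod_cast h6)

theorem dt_add_left {m N : ℕ} (v w y : VN m N) : dt (v + w) y = dt v y + dt w y := by
  unfold dt
  rw [← Finset.sum_add_distrib]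
  exact Finset.sum_congr rfl fun i _ => by rw [Pi.add_apply]; ring

theorem dt_sub_right {m N : ℕ} (v y z : VN m N) : dt v (y - z) = dt v y + -dt v z := by
  unfold dt
  rw [← sub_eq_add_neg, ← Finset.sum_sub_distrib]
  exact Finset.sum_congr rfl fun i _ => by rw [Pi.sub_apply]; ring

theorem dt_single {m N : ℕ} (i : Fin m) (y : VN m N) : dt (Pi.single i 1) y = y i := by
  unfold dt
  rw [Finset.sum_eq_single i]
  · rw [Pi.single_eq_same, one_mul]
  · intro j _ hj
    rw [Pi.single_eq_of_ne hj, zero_mul]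
  · intro h
    exact absurd (Finset.mem_univ _) h

open Classical in
/-- orthogonality on the vectors -/
theorem orth {m N : ℕ} [NeZero N] (h0 : psn N 0 = 1)
    (ha : ∀ a b : ZMod N, psn N (a + b) = psn N a * psn N b) (z : VN m N) :
    ∑ v : VN m N, psn N (dt v z) = if z = 0 then (N : ℂ) ^ m else 0 := by
  split_ifs with hz
  · subst hz
    have h1 : ∀ v : VN m N, psn N (dt v 0) = 1 := by
      intro v
      have : dt v (0 : VN m N) = 0 := by simp [dt]
      rw [this, h0]
    simp only [h1, Finset.sum_const, Finset.card_univ, Fintype.card_pi, ZMod.card,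
      Finset.prod_const, Fintype.card_fin, nsmul_eq_mul, mul_one]
    push_cast
    rfl
  · obtain ⟨i, hi⟩ := Function.ne_iff.1 hz
    have h1 : ∑ v : VN m N, psn N (dt v z) = psn N (z i) * ∑ v : VN m N, psn N (dt v z) := by
      rw [Finset.mul_sum, ← Equiv.sum_comp (Equiv.addRight (Pi.single i (1 : ZMod N)))]
      refine Finset.sum_congr rfl fun v _ => ?_
      rw [Equiv.coe_addRight, dt_add_left, dt_single, ha, mul_comm]
    have h2 : (1 - psn N (z i)) * ∑ v : VN m N, psn N (dt v z) = 0 := by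
      rw [sub_mul, one_mul, ← h1, sub_self]
    rcases mul_eq_zero.1 h2 with h3 | h3
    · exact absurd (psn_eq_one (z i) (sub_eq_zero.1 h3).symm) hi
    · exact h3

theorem tr_vec {m N : ℕ} (x v : VN m N) (c : RM m N) :
    (Matrix.vecMulVec x v * c).trace = dt v (c.mulVec x) := by
  simp only [Matrix.trace, Matrix.diag_apply, Matrix.mul_apply, Matrix.vecMulVec_apply, dt,
    Matrix.mulVec, dotProduct, Finset.mul_sum]
  rw [Finset.sum_comm]
  exact Finset.sum_congr rfl fun i _ => Finset.sum_congr rfl fun j _ => by ring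

open Classical in
/-- the finite identity -/
theorem fin_id {m N : ℕ} [NeZero N] (hm : 1 ≤ m) (h0 : psn N 0 = 1)
    (ha : ∀ a b : ZMod N, psn N (a + b) = psn N a * psn N b)
    (hcard : Fintype.card (RM m N) = N ^ (m ^ 2))
    (hz : ∀ D : RM m N, D ≠ 0 → ∑ c, psq N (D * c) = 0) (B : RM m N) (x y : VN m N) :
    ∑ c : RM m N, (if c.mulVec x = y then psq N (B * c) else 0) =
      (N : ℂ) ^ (m ^ 2 - m) *
        ∑ v : VN m N, (if B = Matrix.vecMulVec x v then psn N (dt v y) else 0) := by
  have hN : (N : ℂ) ≠ 0 := by exact_mod_cast NeZero.ne N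
  have hsum : ∀ D : RM m N, ∑ c, psq N (D * c) = if D = 0 then (N : ℂ) ^ (m ^ 2) else 0 := by
    intro D
    split_ifs with hD
    · subst hD
      have h1 : ∀ c : RM m N, psq N ((0 : RM m N) * c) = 1 := by
        intro c
        rw [zero_mul]
        change psn N (Matrix.trace (0 : RM m N)) = 1
        rw [Matrix.trace_zero, h0]
      simp only [h1, Finset.sum_const, Finset.card_univ, hcard, nsmul_eq_mul, mul_one]
      push_cast
      rfl
    · exact hz D hD
  have hpt : ∀ c : RM m N, (N : ℂ) ^ m * (if c.mulVec x = y then psq N (B * c) else 0) =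
      ∑ v : VN m N, psn N (dt v y) * psq N ((B - Matrix.vecMulVec x v) * c) := by
    intro c
    have h1 : ∀ v : VN m N, psn N (dt v y) * psq N ((B - Matrix.vecMulVec x v) * c) =
        psq N (B * c) * psn N (dt v (y - c.mulVec x)) := by
      intro v
      have h2 : psq N ((B - Matrix.vecMulVec x v) * c) =
          psq N (B * c) * psn N (-dt v (c.mulVec x)) := by
        change psn N (((B - Matrix.vecMulVec x v) * c).trace) = psn N ((B * c).trace) * _
        rw [sub_mul, Matrix.trace_sub, tr_vec, sub_eq_add_neg, ha]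
      rw [h2, dt_sub_right, ha]
      ring
    rw [Finset.sum_congr rfl fun v _ => h1 v, ← Finset.mul_sum, orth h0 ha]
    by_cases hc : c.mulVec x = y
    · rw [if_pos hc, if_pos (by rw [hc, sub_self]), mul_comm]
    · rw [if_neg hc, if_neg (fun h => hc (sub_eq_zero.1 h).symm), mul_zero, mul_zero]
  have hmain : (N : ℂ) ^ m * ∑ c : RM m N, (if c.mulVec x = y then psq N (B * c) else 0) =
      (N : ℂ) ^ m * ((N : ℂ) ^ (m ^ 2 - m) *
        ∑ v : VN m N, (if B = Matrix.vecMulVec x v then psn N (dt v y) else 0)) := by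
    rw [Finset.mul_sum, Finset.sum_congr rfl fun c _ => hpt c, Finset.sum_comm]
    have hmm : m + (m ^ 2 - m) = m ^ 2 := by
      have : m ≤ m ^ 2 := by nlinarith
      omega
    rw [← mul_assoc, ← pow_add, hmm, Finset.mul_sum]
    refine Finset.sum_congr rfl fun v _ => ?_
    rw [← Finset.mul_sum, hsum]
    by_cases hB : B = Matrix.vecMulVec x v
    · rw [if_pos hB, if_pos (sub_eq_zero.2 hB), mul_comm]
    · rw [if_neg hB, if_neg (fun h => hB (sub_eq_zero.1 h)), mul_zero, mul_zero]
  exact mul_left_cancel₀ (pow_ne_zero m hN) hmain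

end Pool.Agent.H30.GU.PS

namespace Pool.Agent.H30.GU

open MeasureTheory Pool.Agent.H34.GM Pool.Agent.H34.GZ Pool.Agent.H34.GU

open Classical in
theorem pf_POU : T_POZ → T_PSU → T_PSZ → T_ALZ → T_POU := by
  intro h1 h2 h3 h4 m N _ hm hN Φ hΦ g h r x y hg hh hr _
  obtain ⟨h0, ha, hn, -, -⟩ := h2 m N hm hN
  obtain ⟨-, -, hcard, -⟩ := h4 m N hm hN
  obtain ⟨-, -, -, -, -, -, -, hz⟩ := h3 m N hm hN
  have hNR : (N : ℝ) ≠ 0 := by exact_mod_cast NeZero.ne N
  set f : ZM m → ℂ := fun α => Φ (kk r h (cR α) g) with hf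
  set A : ZM m → ℂ := fun β => ft Φ (kk ((N : ℝ) / r) g (cR β) h) with hAdef
  have hfin : {α : ZM m | f α ≠ 0}.Finite :=
    Pool.Agent.H8.GZ.PA.fin_supp hΦ.toTst hr hh hg
  have hA : Summable fun β => ‖A β‖ := (h1 m N hm hN Φ hΦ g h r 0 hg hh hr).1
  have hP : ∀ c : RM m N, ∑' α : ZM m, (if cQ N α = c then f α else 0) =
      ((r ^ (m ^ 2) / (N : ℝ) ^ (m ^ 2) : ℝ) : ℂ) * ∑' β : ZM m, psq N (cQ N β * c) * A β :=
    fun c => (h1 m N hm hN Φ hΦ g h r c hg hh hr).2
  have hqn : ∀ a : RM m N, ‖psq N a‖ = 1 := fun a => hn a.trace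
  -- the left side
  have hs1 : ∀ c : RM m N, Summable fun α : ZM m =>
      (if c.mulVec x = y then (if cQ N α = c then f α else 0) else 0) := by
    intro c
    refine summable_of_hasFiniteSupport (hfin.subset ?_)
    intro α hα hfα
    apply hα
    show (if c.mulVec x = y then (if cQ N α = c then f α else 0) else 0) = 0
    rw [hfα, ite_self, ite_self]
  have hL : ∑' α : ZM m, (if ac N α x = y then f α else 0) =
      ∑ c : RM m N, (if c.mulVec x = y then ∑' α : ZM m, (if cQ N α = c then f α else 0)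
        else 0) := by
    have e1 : ∀ α : ZM m, (if ac N α x = y then f α else 0) =
        ∑ c : RM m N, (if c.mulVec x = y then (if cQ N α = c then f α else 0) else 0) := by
      intro α
      rw [Finset.sum_eq_single (cQ N α)]
      · rw [if_pos rfl]; rfl
      · intro c _ hc
        rw [if_neg (Ne.symm hc), ite_self]
      · intro hc
        exact absurd (Finset.mem_univ _) hc
    rw [tsum_congr e1, Summable.tsum_finsetSum fun c _ => hs1 c]
    refine Finset.sum_congr rfl fun c _ => ?_
    split_ifs with hc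
    · rfl
    · exact tsum_zero
  have hsA : ∀ w : ZM m → ℂ, (∀ β, ‖w β‖ ≤ 1) → Summable fun β => w β * A β := by
    intro w hw
    refine Summable.of_norm_bounded hA fun β => ?_
    rw [norm_mul]
    exact mul_le_of_le_one_left (norm_nonneg _) (hw β)
  -- the right side
  have hR : ∑ v : VN m N, psn N (dt v y) * ∑' β : ZM m,
      (if cQ N β = Matrix.vecMulVec x v then A β else 0) =
      ∑' β : ZM m, (∑ v : VN m N, (if cQ N β = Matrix.vecMulVec x v then psn N (dt v y)
        else 0)) * A β := by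
    have e1 : ∀ v : VN m N, psn N (dt v y) * ∑' β : ZM m,
        (if cQ N β = Matrix.vecMulVec x v then A β else 0) =
        ∑' β : ZM m, (if cQ N β = Matrix.vecMulVec x v then psn N (dt v y) else 0) * A β := by
      intro v
      rw [← tsum_mul_left]
      refine tsum_congr fun β => ?_
      split_ifs
      · rfl
      · rw [mul_zero, zero_mul]
    rw [Finset.sum_congr rfl fun v _ => e1 v, ← Summable.tsum_finsetSum]
    · exact tsum_congr fun β => by rw [Finset.sum_mul]
    · intro v _
      refine hsA _ fun β => ?_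
      split_ifs
      · rw [hn]
      · rw [norm_zero]; exact zero_le_one
  have hL2 : ∑ c : RM m N, (if c.mulVec x = y then ∑' α : ZM m, (if cQ N α = c then f α else 0)
        else 0) = ((r ^ (m ^ 2) / (N : ℝ) ^ (m ^ 2) : ℝ) : ℂ) *
        ∑' β : ZM m, (∑ c : RM m N, (if c.mulVec x = y then psq N (cQ N β * c) else 0)) * A β := by
    have e1 : ∀ c : RM m N, (if c.mulVec x = y then ∑' α : ZM m, (if cQ N α = c then f α else 0)
        else 0) = ((r ^ (m ^ 2) / (N : ℝ) ^ (m ^ 2) : ℝ) : ℂ) *
        ∑' β : ZM m, (if c.mulVec x = y then psq N (cQ N β * c) else 0) * A β := by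
      intro c
      split_ifs with hc
      · exact hP c
      · simp only [zero_mul, tsum_zero, mul_zero]
    rw [Finset.sum_congr rfl fun c _ => e1 c, ← Finset.mul_sum, ← Summable.tsum_finsetSum]
    · congr 1
      exact tsum_congr fun β => by rw [Finset.sum_mul]
    · intro c _
      refine hsA _ fun β => ?_
      split_ifs
      · rw [hqn]
      · rw [norm_zero]; exact zero_le_one
  change ∑' α : ZM m, (if ac N α x = y then f α else 0) = _ * ∑ v : VN m N, psn N (dt v y) *
    ∑' β : ZM m, (if cQ N β = Matrix.vecMulVec x v then A β else 0)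
  rw [hL, hL2, hR]
  have e2 : ∀ β : ZM m, (∑ c : RM m N, (if c.mulVec x = y then psq N (cQ N β * c) else 0)) * A β =
      (N : ℂ) ^ (m ^ 2 - m) * ((∑ v : VN m N, (if cQ N β = Matrix.vecMulVec x v then
        psn N (dt v y) else 0)) * A β) := by
    intro β
    rw [PS.fin_id hm h0 ha hcard hz, mul_assoc]
  rw [tsum_congr e2, tsum_mul_left, ← mul_assoc]
  congr 1
  have hmm : m ^ 2 = m + (m ^ 2 - m) := by
    have : m ≤ m ^ 2 := by nlinarith
    omega
  have hNC : (N : ℂ) ≠ 0 := by exact_mod_cast NeZero.ne N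
  push_cast
  rw [div_mul_eq_mul_div, div_eq_div_iff (pow_ne_zero _ hNC) (pow_ne_zero _ hNC), mul_assoc,
    ← pow_add, add_comm (m ^ 2 - m) m, ← hmm]

end Pool.Agent.H30.GU
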