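import Pool.Agent.H34.GU.Targets1

/-!
# FR1: the Fricke correspondence (board gu, page H34_GU.md, section 5)

The rows of `H v` span the lattice of the integer vectors which are multiples of `v` modulo `N`.
-/

set_option autoImplicit false

namespace Pool.Agent.H30.GU

open MeasureTheory Pool.Agent.H34.GM Pool.Agent.H34.GZ Pool.Agent.H34.GU

/-- reduction of integer vectors -/
def rv (m N : ℕ) : (Fin m → ℤ) →+ VN m N where
  toFun c := fun i => (c i : ZMod N)
  map_zero' := by funext i; simp
  map_add' a b := by funext i; simp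

theorem rv_surj (m N : ℕ) [NeZero N] : Function.Surjective (rv m N) := by
  intro v
  refine ⟨fun i => ((v i).val : ℤ), ?_⟩
  funext i
  simp [rv]

theorem card_zm {m N : ℕ} [NeZero N] (v : VN m N) (hv : Pr v) :
    Nat.card (AddSubgroup.zmultiples v) = N := by
  obtain ⟨u, hu⟩ := hv
  rw [Nat.card_zmultiples]
  refine Nat.dvd_antisymm ?_ ?_
  · refine addOrderOf_dvd_of_nsmul_eq_zero ?_
    funext i
    simp
  · have h1 : (addOrderOf v) • v = 0 := addOrderOf_nsmul_eq_zero v
    have h2 : ((addOrderOf v : ℕ) : ZMod N) = 0 := by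
      have h3 : dt u ((addOrderOf v) • v) = ((addOrderOf v : ℕ) : ZMod N) := by
        have h4 : dt u ((addOrderOf v) • v) = ((addOrderOf v : ℕ) : ZMod N) * dt u v := by
          unfold dt
          rw [Finset.mul_sum]
          refine Finset.sum_congr rfl fun i _ => ?_
          rw [Pi.smul_apply, nsmul_eq_mul]
          ring
        rw [h4, hu, mul_one]
      rw [← h3, h1]
      simp [dt]
    exact (ZMod.natCast_eq_zero_iff _ _).1 h2

theorem index_rv {m N : ℕ} [NeZero N] (hm : 1 ≤ m) (v : VN m N) (hv : Pr v) :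
    ((AddSubgroup.zmultiples v).comap (rv m N)).index = N ^ (m - 1) := by
  rw [AddSubgroup.index_comap_of_surjective _ (rv_surj m N)]
  have h1 := AddSubgroup.card_mul_index (AddSubgroup.zmultiples v)
  rw [card_zm v hv] at h1
  have h2 : Nat.card (VN m N) = N ^ m := by
    rw [Nat.card_fun, Nat.card_zmod, Nat.card_fin]
  have hN : 0 < N := Nat.pos_of_ne_zero (NeZero.ne N)
  have h3 : N ^ m = N * N ^ (m - 1) := by
    rw [← pow_succ']
    congr 1
    omega
  rw [h2, h3] at h1
  exact Nat.eq_of_mul_eq_mul_left hN h1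

theorem vmv_inj {m N : ℕ} (a b v : VN m N) (hv : Pr v)
    (h : Matrix.vecMulVec a v = Matrix.vecMulVec b v) : a = b := by
  obtain ⟨u, hu⟩ := hv
  funext i
  have h1 : ∀ j, a i * v j = b i * v j := fun j => congrFun (congrFun h i) j
  calc a i = a i * dt u v := by rw [hu, mul_one]
    _ = ∑ j, u j * (a i * v j) := by
        unfold dt
        rw [Finset.mul_sum]
        exact Finset.sum_congr rfl fun j _ => by ring
    _ = ∑ j, u j * (b i * v j) := Finset.sum_congr rfl fun j _ => by rw [h1 j]
    _ = b i * dt u v := by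
        unfold dt
        rw [Finset.mul_sum]
        exact Finset.sum_congr rfl fun j _ => by ring
    _ = b i := by rw [hu, mul_one]

theorem cQ_mul' {m : ℕ} (N : ℕ) (α β : ZM m) : cQ N (α * β) = cQ N α * cQ N β := by
  ext i j
  simp [cQ, Matrix.mul_apply]

theorem pf_FR1 (h1 : T_IDX) : T_FR1 := by
  intro m N _ hm hN
  have key : ∀ v : VN m N, ∃ (H : ZM m) (x : VN m N), Pr v → (Pr x ∧
      cQ N H = Matrix.vecMulVec x v ∧ H.det.natAbs = N ^ (m - 1) ∧
      ∀ (β : ZM m) (x' : VN m N), cQ N β = Matrix.vecMulVec x' v →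
        ∃ φ : ZM m, β = φ * H ∧ ac N φ x = x') := by
    intro v
    by_cases hv : Pr v
    swap
    · exact ⟨0, 0, fun h => absurd h hv⟩
    have hN0 : 0 < N := by omega
    have hidx := index_rv hm v hv
    obtain ⟨H, hdet, hcl⟩ := (h1 m).2.1 ((AddSubgroup.zmultiples v).comap (rv m N))
      (by rw [hidx]; positivity)
    have hrow : ∀ i, ∃ k : ℤ, k • v = rv m N (H i) := by
      intro i
      have h2 : H i ∈ (AddSubgroup.zmultiples v).comap (rv m N) := by
        rw [← hcl]; exact AddSubgroup.subset_closure ⟨i, rfl⟩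
      exact AddSubgroup.mem_zmultiples_iff.1 (AddSubgroup.mem_comap.1 h2)
    choose k hk using hrow
    have hred : cQ N H = Matrix.vecMulVec (fun i => (k i : ZMod N)) v := by
      ext i j
      have h2 := congrFun (hk i) j
      rw [Pi.smul_apply, zsmul_eq_mul] at h2
      rw [Matrix.vecMulVec_apply, h2]
      rfl
    have hd : H.det.natAbs = N ^ (m - 1) := by
      rw [← (h1 m).1 H hdet, hcl, hidx]
    have hdvd : ∀ (β : ZM m) (x' : VN m N), cQ N β = Matrix.vecMulVec x' v →
        ∃ φ : ZM m, β = φ * H ∧ ac N φ (fun i => (k i : ZMod N)) = x' := by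
      intro β x' hβ
      have h2 : ∀ i, β i ∈ AddSubgroup.closure (Set.range H) := by
        intro i
        rw [hcl, AddSubgroup.mem_comap, AddSubgroup.mem_zmultiples_iff]
        refine ⟨((x' i).val : ℤ), ?_⟩
        funext j
        have h3 := congrFun (congrFun hβ i) j
        rw [Matrix.vecMulVec_apply] at h3
        rw [Pi.smul_apply, zsmul_eq_mul]
        have h4 : rv m N (β i) j = cQ N β i j := rfl
        rw [h4, h3]
        simp
      obtain ⟨φ, hφ⟩ := ((h1 m).2.2.1 H β).1 h2
      refine ⟨φ, hφ, ?_⟩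
      refine vmv_inj _ _ v hv ?_
      rw [← hβ, hφ, cQ_mul', hred]
      ext i j
      simp only [ac, Matrix.vecMulVec_apply, Matrix.mul_apply, Matrix.mulVec, dotProduct,
        Finset.sum_mul]
      exact Finset.sum_congr rfl fun l _ => by ring
    refine ⟨H, fun i => (k i : ZMod N), fun _ => ⟨?_, hred, hd, hdvd⟩⟩
    -- `x` is primitive
    obtain ⟨φ, -, hφ⟩ := hdvd (fun _ j => ((v j).val : ℤ)) (fun _ => 1) (by
      ext i j
      rw [Matrix.vecMulVec_apply, one_mul]
      change ((((v j).val : ℤ)) : ZMod N) = v j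
      simp)
    have i0 : Fin m := ⟨0, by omega⟩
    refine ⟨fun l => ((φ i0 l : ℤ) : ZMod N), ?_⟩
    have h2 := congrFun hφ i0
    exact h2
  choose H xv hH using key
  exact ⟨H, xv, fun v hv => (hH v hv).1, fun v hv => (hH v hv).2.1, fun v hv => (hH v hv).2.2.1,
    fun v hv => (hH v hv).2.2.2⟩

end Pool.Agent.H30.GU
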